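import Pool.Agent.V11302.Pat.Comm

set_option autoImplicit false

/-!
# Consecutive record gaps which are bounded multiples of one arbitrary number

Let `f(x) = log x (log₂ x)² log₄ x / (log₃ x)²`, the size of the largest gaps between consecutive primes that are
known to occur up to `x`. For every `k` there are `R` and `c > 0` such that for EVERY number `t ≤ c f(X)` there are
blocks of `k + 1` consecutive primes near `X` all of whose gaps are multiples `r_i t` of `t` with `r_i ≤ R`: the
primes of the block lie in an arithmetic progression with the prescribed difference `t` and at most `k R + 1` terms.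
The vector `(r_0, ..., r_(k-1))` is the same for at least `c X^(7/8)` blocks and has strong divisibility properties:
`m` times the difference of any two primes of the block divides all the later gaps. For `t` of size `c f(X)` these
are `k` consecutive gaps of record size. The set of the `t` is not restricted: `t` can be a prime, a power of `2` or a
factorial, so that the `k` record gaps have boundedly many prime factors, or only prime factors `≤ R`, etc.

Method: the theorem of helper101 on arbitrary admissible tuples inside record windows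
(`Pool.Agent.TH101.RG.tuple_multiples`) for the tuples `K! q a_j t`, `a_(j+1) = a_j + m (a_j)!`: every subset of
such a tuple has the divisibility properties. helper302.
-/

open Filter

namespace Pool.Agent.Results.MP_ff81b6_nt.CommensurableRecordGaps

/-- The record scale `f(x) = log x (log₂ x)² log₄ x / (log₃ x)²` (iterated natural logarithms). -/
noncomputable def f (x : ℝ) : ℝ :=
  Real.log x * (Real.log (Real.log x)) ^ 2 * Real.log (Real.log (Real.log (Real.log x))) /
    (Real.log (Real.log (Real.log x))) ^ 2

/-- The `i`-th prime, numbered from `p 0 = 2`. -/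
noncomputable def p (i : ℕ) : ℕ := Nat.nth Nat.Prime i

/-- The primes `p_n, …, p_{n+k}` lie in `(X, 4X]` and are `≡ a (mod q)`, the `k` gaps between them are
`r_0 t, …, r_{k-1} t`, at most `R` primes are at distance at most `c f(X)` from `p_n`, and for all different
`i, j ≤ J` the multiple `i p_n` has no multiple `j Q` of a prime `Q` at distance at most `c f(X)`. -/
def Block (k q a t J R : ℕ) (r : ℕ → ℕ) (c X : ℝ) (n : ℕ) : Prop :=
  (∀ i < k, p (n + i + 1) = p (n + i) + r i * t) ∧ X < (p n : ℝ) ∧ (p (n + k) : ℝ) ≤ 4 * X ∧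
    (∀ i ≤ k, p (n + i) ≡ a [MOD q]) ∧
    {Q : ℕ | Q.Prime ∧ |(Q : ℝ) - p n| ≤ c * f X}.ncard ≤ R ∧
    ∀ i j : ℕ, 1 ≤ i → i ≤ J → 1 ≤ j → j ≤ J → i ≠ j → ∀ Q : ℕ, Q.Prime →
      c * f X < |(j : ℝ) * Q - i * p n|

/-- **Commensurable record gaps.** For all `k`, `J`, `m ≥ 1` and squarefree `q` there are `R`, `c > 0` and `X₀` such
that for all `X ≥ X₀`, all `1 ≤ t ≤ c f(X)` and all `a` prime to `q` there are `r_0, …, r_{k-1}` in `[1, R]` such
that `m (r_i + … + r_{j-1})` divides `r_l` for all `i < j ≤ l < k`, and there are at least `c X^(7/8)` indices `n`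
for which the gaps between the consecutive primes `p_n, …, p_{n+k}` of `(X, 4X]` are exactly `r_0 t, …, r_{k-1} t`;
all these primes are `≡ a (mod q)`, at most `R` primes are at distance at most `c f(X)` from them, and no multiple
`j Q` of a prime `Q` is at distance at most `c f(X)` from `i p_n`, for different `i, j ≤ J`. -/
theorem result (k J m q : ℕ) (hm : 1 ≤ m) (hq : Squarefree q) : ∃ R : ℕ, ∃ c : ℝ, 0 < c ∧ ∃ X₀ : ℝ,
    ∀ X : ℝ, X₀ ≤ X → ∀ t a : ℕ, 1 ≤ t → (t : ℝ) ≤ c * f X → a.Coprime q →
    ∃ r : ℕ → ℕ, (∀ i < k, 1 ≤ r i ∧ r i ≤ R) ∧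
      (∀ i j l, i < j → j ≤ l → l < k → m * ∑ e ∈ Finset.Ico i j, r e ∣ r l) ∧
      c * X ^ (7 / 8 : ℝ) ≤ ({n : ℕ | Block k q a t J R r c X n}.ncard : ℝ) := by
  obtain ⟨R, c, hc, h⟩ := Pool.Agent.V11302.Pat.comm k m J q hm hq
  obtain ⟨X₀, hX₀⟩ := eventually_atTop.1 h
  exact ⟨R, c, hc, X₀, fun X hX t a ht htc ha => hX₀ X hX t a ht htc ha⟩

end Pool.Agent.Results.MP_ff81b6_nt.CommensurableRecordGaps
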