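import Pool.Agent.V1179.MH.QR4

set_option autoImplicit false

/-!
# Record prime gaps at places with a prescribed pattern of Legendre symbols

Write `f(Z) = log Z (log₂ Z)² log₄ Z / (log₃ Z)²` (the size of the longest prime gaps below `Z` that are
known, from the starting library).

For every `ε > 0` there are `κ, c > 0` and `P₀` such that for every prime `P ≥ P₀`, every `K ≤ c log P`,
all distinct residues `b₁, …, b_K` modulo `P` and all signs `ω₁, …, ω_K`, every interval `[M, M + N)` in
`[0, P)` with `N ≥ P ^ (1/2 + ε)` contains an integer `n` such that the Legendre symbol of `n + b_j`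
modulo `P` is `ω_j` for all `j`, and no prime lies within `κ f(P)` of `n`.

For instance the Legendre symbols of `n + 1, …, n + K`, with `K = c log P`, may be prescribed
arbitrarily at places in the middle of prime gaps of this size.

Proof: for most starting points `x` all sums of products of Legendre symbols along the progressions
with small differences in `[x, x + √P)` are small (mean squares and Weil's bound for quadratic
character sums, `Pool.Agent.H341R2.Sharp`), so the set of all `n` in `[x, x + √P)` with the given pattern
is well distributed in residue classes; then the covering criterion of the library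
(`Pool.Agent.Y961.JR.critJ`) applies.
-/

namespace Pool.Agent.Results.MP_ff81b6_nt.LegendrePatterns

/-- the size of the largest known prime gaps below `Z` -/
noncomputable def f (Z : ℝ) : ℝ :=
  Real.log Z * (Real.log (Real.log Z)) ^ 2 * Real.log (Real.log (Real.log (Real.log Z))) /
    (Real.log (Real.log (Real.log Z))) ^ 2

/-- no prime is at distance at most `d` from `x` -/
def PrimeFreeAround (x d : ℝ) : Prop := ∀ q : ℕ, q.Prime → d < |(q : ℝ) - x|

theorem result (ε : ℝ) (hε : 0 < ε) :
    ∃ κ : ℝ, 0 < κ ∧ ∃ c : ℝ, 0 < c ∧ ∃ P₀ : ℕ, ∀ P : ℕ, P₀ ≤ P → ∀ [Fact P.Prime],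
    ∀ K : ℕ, (K : ℝ) ≤ c * Real.log P → ∀ b : Fin K → ZMod P, Function.Injective b →
    ∀ ω : Fin K → ℤ, (∀ j, ω j = 1 ∨ ω j = -1) →
    ∀ M N : ℕ, M + N ≤ P → (P : ℝ) ^ (1 / 2 + ε) ≤ N →
    ∃ n : ℕ, M ≤ n ∧ n < M + N ∧ (∀ j, quadraticChar (ZMod P) ((n : ZMod P) + b j) = ω j) ∧
      PrimeFreeAround n (κ * f P) :=
  Pool.Agent.V1179.MH.patterns ε hε

end Pool.Agent.Results.MP_ff81b6_nt.LegendrePatterns
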