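import Pool.Agent.Y898.PolyGaps

set_option autoImplicit false

/-!
# Polynomials in consecutive prime gaps are return times, at every scale, next to a record gap

Let `f(x) = log x (log₂ x)² log₄ x / (log₃ x)²`, the size of the largest gaps between consecutive
primes that are known to occur up to `x`.

Let `P_1, …, P_N : ℝ^k → ℝ^e` be polynomial maps, of degree at most `D` in each variable, with
`P_j(0) = 0`; all but at most `s` of the `e` coordinates are assumed to be integer valued on `ℤ^k`.
Let the lattice `ℤ^e` be coloured with `K` colours.  For every `H` with `1 ≤ H ≤ c f(x)` there are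
at least `x^(7/8)` clusters of `k + 1` consecutive primes up to `x`, preceded by a gap of size at
least `c f(x)`, whose `k` gaps `d = (d_1, …, d_k)` are between `H` and `C H`, such that

* every coordinate of every `P_j(d)` is at a distance less than `ε` from an integer; let `[P_j(d)]`
  be the vector of the next integers;
* the set of the points `a` such that ALL the points `a + [P_1(d)], …, a + [P_N(d)]` have the colour
  of `a` has upper Banach density at least `η`.

The constants `c`, `C`, `η` and `x₀` depend only on `k`, `K`, `N`, `D`, `s`, `ε`: they are the same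
for all polynomials and all colourings, for all dimensions `e` and all scales `H`.  For `H = c f(x)`
the `k + 1` gaps in question are all of record size.

For example (`k = e = 1`, `s = 0`): for every finite colouring of the integers there are `x^(7/8)`
prime gaps `d` of record size up to `x` such that `a, a + d, a + d ^ 2, …, a + d ^ N` have the same
colour for a set of `a` of positive upper Banach density.  With one colour: the fractional parts of
`N` arbitrary real polynomials `P_j(d_1, …, d_k)` without constant term are less than `ε` (or greater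
than `1 - ε`), for `x^(7/8)` vectors of consecutive gaps of any size between `1` and the record size,
uniformly in the coefficients.

Method.  The polynomial Hales-Jewett type return theorem `Y898.Den.returns`, in which the values of
the variables are sums over increasing sets of indices, and the record sieve of helper101
(`TH101.RG.core`) in the form of `Y898.Engine2`, which realises such sums by consecutive gaps.  The
mathematics is in the file `Pool/Agent/Y898/PolyGaps.lean` of the starting repository (helper898), in
which no hand-in used it.  It is different from `MillikenTaylorForGaps` (partition regularity of the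
sums of gaps; no polynomials, no fractional parts, no return times of colourings of a lattice).
-/

namespace Pool.Agent.Results.MP_ff81b6_nt.PolynomialReturnTimes

/-- The record scale `f(x) = log x (log₂ x)² log₄ x / (log₃ x)²` (iterated natural logarithms). -/
noncomputable def f (x : ℝ) : ℝ :=
  Real.log x * (Real.log (Real.log x)) ^ 2 * Real.log (Real.log (Real.log (Real.log x))) /
    (Real.log (Real.log (Real.log x))) ^ 2

/-- The `i`-th prime, numbered from `p 0 = 2`. -/
noncomputable def p (i : ℕ) : ℕ := Nat.nth Nat.Prime i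

/-- The gap after the `i`-th prime. -/
noncomputable def d (i : ℕ) : ℤ := (p (i + 1) : ℤ) - p i

/-- The primes `p_n, …, p_(n+k)` are at most `x`, the gap before `p_n` is at least `c f(x)` and the
`k` gaps between them are between `H` and `C H`. -/
def Cluster (c C x H : ℝ) (k n : ℕ) : Prop :=
  0 < n ∧ (p (n + k) : ℝ) ≤ x ∧ c * f x ≤ (d (n - 1) : ℝ) ∧
    ∀ i < k, H ≤ (d (n + i) : ℝ) ∧ (d (n + i) : ℝ) ≤ C * H

/-- The vector of the `k` gaps after `p_n`. -/
noncomputable def gaps (k n : ℕ) : Fin k → ℤ := fun l => d (n + l)

/-- A polynomial map from `ℝ^k` to `ℝ^e` of degree at most `D` in each of the `k` variables: the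
vector valued coefficients of the monomials `∏ v_l ^ (m l)`, `m l ≤ D`. -/
abbrev PolyMap (k D e : ℕ) : Type := (Fin k → Fin (D + 1)) → (Fin e → ℝ)

/-- The `i`-th coordinate of the value of the polynomial map `P` at `v ∈ ℤ^k`. -/
noncomputable def value {k D e : ℕ} (P : PolyMap k D e) (v : Fin k → ℤ) (i : Fin e) : ℝ :=
  ∑ m : Fin k → Fin (D + 1), (∏ l, (v l : ℝ) ^ (m l : ℕ)) * P m i

/-- The set `A ⊆ ℤ^e` has upper Banach density at least `δ`: there are arbitrarily large cubes with
side `N` which contain at least `δ N ^ e` points of `A`. -/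
def DensityAtLeast {e : ℕ} (A : Set (Fin e → ℤ)) (δ : ℝ) : Prop :=
  ∀ L : ℕ, ∃ N : ℕ, L ≤ N ∧ ∃ x : Fin e → ℤ,
    δ * (N : ℝ) ^ e ≤ (Set.ncard {v | v ∈ A ∧ ∀ i, x i ≤ v i ∧ v i < x i + N} : ℝ)

theorem value_eq {k D e : ℕ} (P : PolyMap k D e) (v : Fin k → ℤ) (i : Fin e) :
    Pool.Agent.Y898.PR.ev P (fun l => (v l : ℝ)) i = value P v i := by
  unfold Pool.Agent.Y898.PR.ev value
  rw [Finset.sum_apply]
  rfl

theorem finite_of {x : ℝ} {k : ℕ} {S : Set ℕ} (h : ∀ n ∈ S, (p (n + k) : ℝ) ≤ x) : S.Finite := by
  refine (Set.finite_Iic ⌊x⌋₊).subset ?_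
  intro n hn
  refine Nat.le_floor (le_trans ?_ (h n hn))
  have h2 : n + k ≤ Nat.nth Nat.Prime (n + k) :=
    (Nat.nth_strictMono Nat.infinite_setOfPred_prime).le_apply
  exact_mod_cast (Nat.le_add_right n k).trans h2

/-- **Polynomials in consecutive prime gaps are return times.**  For all `k`, `K`, `N`, `D`, `s` and
`ε > 0` there are `η > 0`, `c > 0`, `C` and `x₀` such that for all `x ≥ x₀`, all `H` with
`1 ≤ H ≤ c f(x)`, all `e`, all `N` polynomial maps `P_j` from `ℝ^k` to `ℝ^e` of degree at most `D` in
each variable, without constant term and with integer values on `ℤ^k` in all but at most `s`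
coordinates, and every colouring `χ` of `ℤ^e` with `K` colours there are at least `x^(7/8)` clusters
`p_n, …, p_(n+k)` of consecutive primes up to `x`, with all `k` gaps between `H` and `C H` and the
gap before `p_n` at least `c f(x)`, such that at the vector of the `k` gaps all the coordinates of
all the `P_j` are within `ε` of integers and the set of the `a ∈ ℤ^e` which have the same colour as
all the points `a + [P_j]` (nearest integers) has upper Banach density at least `η`. -/
theorem result (k K N D s : ℕ) (ε : ℝ) (hε : 0 < ε) : ∃ η c C : ℝ, 0 < η ∧ 0 < c ∧ 0 < C ∧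
    ∃ x₀ : ℝ, ∀ x : ℝ, x₀ ≤ x → ∀ H : ℝ, 1 ≤ H → H ≤ c * f x →
    ∀ (e : ℕ) (P : Fin N → PolyMap k D e), (∀ j, P j 0 = 0) →
    (∃ S : Finset (Fin e), S.card ≤ s ∧
      ∀ i, i ∉ S → ∀ j, ∀ v : Fin k → ℤ, ∃ u : ℤ, value (P j) v i = u) →
    ∀ χ : (Fin e → ℤ) → Fin K,
    x ^ (7 / 8 : ℝ) ≤ (Set.ncard {n : ℕ | Cluster c C x H k n ∧
      (∀ j i, |value (P j) (gaps k n) i - round (value (P j) (gaps k n) i)| < ε) ∧
      DensityAtLeast {a : Fin e → ℤ |
        ∀ j, χ (fun i => a i + round (value (P j) (gaps k n) i)) = χ a} η} : ℝ) := by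
  obtain ⟨η, hη, c, C, hc, hC, h⟩ := Pool.Agent.Y898.PolyGaps.poly_gaps k K N D s ε hε
  obtain ⟨x₀, hx₀⟩ := Filter.eventually_atTop.1 h
  refine ⟨η, c, C, hη, hc, hC, x₀, fun x hx H hH hHc e P hP ⟨S, hS, hint⟩ χ => ?_⟩
  have h1 := hx₀ x hx H hH hHc e P hP S hS (by
    intro i hi j v
    obtain ⟨u, hu⟩ := hint i hi j v
    exact ⟨u, by rw [value_eq]; exact hu⟩) χ
  refine h1.trans ?_
  rw [Nat.cast_le]
  refine Set.ncard_le_ncard ?_ (finite_of (k := k) fun n hn => hn.1.2.1)
  rintro n ⟨hn0, hn1, hn2, hn3, hn4, hn5⟩
  have hg : (fun l : Fin k => (Nat.nth Nat.Prime (n + l + 1) : ℤ) - Nat.nth Nat.Prime (n + l)) =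
      gaps k n := rfl
  rw [hg] at hn4 hn5
  refine ⟨⟨hn0, hn1, ?_, ?_⟩, ?_, ?_⟩
  · have h2 : n - 1 + 1 = n := by omega
    unfold d p
    rw [h2]
    push_cast
    exact hn2
  · intro i hi
    obtain ⟨h3, h4⟩ := hn3 i hi
    unfold d p
    push_cast
    exact ⟨h3, h4⟩
  · intro j i
    have h3 := hn4 j i
    rw [value_eq] at h3
    exact h3
  · have h3 : {a : Fin e → ℤ | ∀ j, χ (fun i => a i + round (value (P j) (gaps k n) i)) = χ a} =
        {a : Fin e → ℤ | ∀ j, χ (fun i => a i +
          round (Pool.Agent.Y898.PR.ev (P j) (fun l => ((gaps k n l : ℤ) : ℝ)) i)) = χ a} := by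
      simp only [value_eq]
    rw [h3]
    exact hn5

end Pool.Agent.Results.MP_ff81b6_nt.PolynomialReturnTimes
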