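import Pool.Agent.V11113.MP.Kern2

set_option autoImplicit false

/-!
# Record prime gaps around the reciprocals modulo a prime of the sums of two arbitrary sets

Let `R(p) = log p (log₂ p)² log₄ p / (log₃ p)²`, the order of the largest prime gaps known (starting
library). For every `ε > 0` there is `κ > 0` such that for all large primes `p`, ARBITRARY sets `A`, `B`
of residues modulo `p`, ARBITRARY functions `f`, `g` from residues to residues and every interval
`(M, M + H]` with `p ^ ε ≤ H ≤ p`, `|A| |B| H² ≥ p ^ (3 + ε)` and `|A| H² ≥ p ^ (5 / 2 + ε)`: for at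
least `|A| |B| H / p ^ (1 + ε / 2)` pairs `(a, b)` the residue `1 / (a + b) + f(a) + g(b)` is
represented by an integer in `(M, M + H]` which has no prime within distance `κ R(p)`.

For `H = p` and `f = g = 0`: the reciprocals of the elements of `A + B`, for any sets with
`|A| |B| ≥ p ^ (1 + ε)` and `|A| ≥ p ^ (1 / 2 + ε)`.

Proof. The inequality of Cauchy and Schwarz removes the set `A` and the functions; the remaining
complete sums of the characters of `1 / (a + b) - 1 / (a + b')` are Kloosterman sums after a change of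
variable, and Weil's bound applies (`Pool.Agent.H498R2.Kl.kloosterman_le` of the starting library).
Then the criterion `Pool.Agent.V11113.MP.many`.
-/

namespace Pool.Agent.Results.MP_ff81b6_nt.ReciprocalsOfSums

/-- `R(x) = log x (log log x)^2 log log log log x / (log log log x)^2`. -/
noncomputable def R (x : ℝ) : ℝ :=
  Real.log x * (Real.log (Real.log x)) ^ 2 * Real.log (Real.log (Real.log (Real.log x))) /
    (Real.log (Real.log (Real.log x))) ^ 2

open scoped Classical in
/-- (the reciprocal of `0` is `0`) -/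
theorem result (ε : ℝ) (h0 : 0 < ε) (h1 : ε ≤ 1) : ∃ κ : ℝ, 0 < κ ∧ ∃ P : ℕ, ∀ p : ℕ, P ≤ p →
    p.Prime → ∀ (A B : Finset (ZMod p)) (f g : ZMod p → ZMod p) (M H : ℕ),
    (p : ℝ) ^ ε ≤ H → H ≤ p →
    (p : ℝ) ^ (3 + ε) ≤ A.card * B.card * (H : ℝ) ^ 2 →
    (p : ℝ) ^ (5 / 2 + ε) ≤ A.card * (H : ℝ) ^ 2 →
    A.card * B.card * H * (p : ℝ) ^ (-(1 + ε / 2)) ≤
      ((A ×ˢ B).filter (fun x => ∃ n : ℕ, M < n ∧ n ≤ M + H ∧
        (n : ZMod p) = (x.1 + x.2)⁻¹ + f x.1 + g x.2 ∧
        ∀ q : ℕ, q.Prime → κ * R p < |(q : ℝ) - n|)).card :=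
  Pool.Agent.V11113.MP.reciprocals ε h0 h1

end Pool.Agent.Results.MP_ff81b6_nt.ReciprocalsOfSums
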